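import Pool.Agent.H7.AF.Low

/-! RH and the pair correlation conjecture imply the lower bound for the primes. -/

open MeasureTheory Filter Topology Real
open scoped ENNReal ContDiff

namespace Pool.Agent.H7.AF

open H370 TH803TW Pool.Agent.Y744 Pool.Agent.H7.PS Pool.Agent.H7.LH Pool.Agent.H7.FF
open Pool.Agent.H7.AC Pool.Agent.H7.AD

/-- the weight against the window -/
lemma Om0_up {K : ℝ → ℝ} {a b d : ℝ} (hd : 0 < d) (hK0 : ∀ x, 0 ≤ K x) (hK1 : ∀ x, K x ≤ 1)
    (hlo : ∀ x, 0 < x → x ≤ a + d → K x = 0) (hhi : ∀ x, 0 < x → b - d ≤ x → K x = 0)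
    {T : ℝ} (hT : 1 < T) (v : ℝ) :
    Om0 (kT K T) v ≤ (Set.Ioc (a * Real.log T) (b * Real.log T)).indicator
      (fun _ => ENNReal.ofReal (Real.sqrt π)) v +
      ENNReal.ofReal (Real.exp (-(d * Real.log T) ^ 2 / 2)) * Om1 (kT K T) v := by
  have hL : 0 < Real.log T := Real.log_pos hT
  obtain ⟨Z, hZ⟩ : ∃ Z, Z = (Set.Ioc (a * Real.log T) (b * Real.log T)).indicator
      (fun _ => (1 : ℝ≥0∞)) v := ⟨_, rfl⟩
  have hZ2 : (Set.Ioc (a * Real.log T) (b * Real.log T)).indicator
      (fun _ => ENNReal.ofReal (Real.sqrt π)) v = ENNReal.ofReal (Real.sqrt π) * Z := by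
    rw [hZ]
    by_cases h : v ∈ Set.Ioc (a * Real.log T) (b * Real.log T)
    · rw [Set.indicator_of_mem h, Set.indicator_of_mem h, mul_one]
    · rw [Set.indicator_of_notMem h, Set.indicator_of_notMem h, mul_zero]
  rw [hZ2]
  have hZtop : Z ≠ ⊤ := by
    rw [hZ]
    by_cases h : v ∈ Set.Ioc (a * Real.log T) (b * Real.log T)
    · rw [Set.indicator_of_mem h]; exact ENNReal.one_ne_top
    · rw [Set.indicator_of_notMem h]; exact ENNReal.zero_ne_top
  unfold Om0 Om1
  have key : ∀ u ∈ Set.Ioi (0 : ℝ), kT K T u * ENNReal.ofReal (Real.exp (-(u - v) ^ 2)) ≤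
      ENNReal.ofReal (Real.exp (-1 * (u - v) ^ 2)) * Z +
      ENNReal.ofReal (Real.exp (-(d * Real.log T) ^ 2 / 2)) * (kT K T u *
        ENNReal.ofReal (4 * Real.exp (-(u - v) ^ 2 / 2))) := by
    intro u hu
    have hu0 : (0 : ℝ) < u := hu
    have huL : 0 < u / Real.log T := div_pos hu0 hL
    rcases le_or_gt |u - v| (d * Real.log T) with h1 | h1
    · refine le_add_right ?_
      rw [mul_comm, neg_one_mul]
      refine mul_le_mul_right ?_ _
      by_cases hz : K (u / Real.log T) = 0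
      · unfold kT
        rw [hz, ENNReal.ofReal_zero]
        exact zero_le
      · have h2 : a + d < u / Real.log T := by
          by_contra hc
          exact hz (hlo _ huL (not_lt.1 hc))
        have h3 : u / Real.log T < b - d := by
          by_contra hc
          exact hz (hhi _ huL (not_lt.1 hc))
        rw [lt_div_iff₀ hL] at h2
        rw [div_lt_iff₀ hL] at h3
        have h4 := abs_le.1 h1
        rw [hZ, Set.indicator_of_mem (show v ∈ Set.Ioc (a * Real.log T) (b * Real.log T) from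
          ⟨by nlinarith [h4.2], by nlinarith [h4.1]⟩)]
        unfold kT
        rw [← ENNReal.ofReal_one]
        exact ENNReal.ofReal_le_ofReal (hK1 _)
    · refine le_add_left ?_
      rw [mul_left_comm]
      refine mul_le_mul_right ?_ _
      rw [← ENNReal.ofReal_mul (Real.exp_pos _).le]
      refine ENNReal.ofReal_le_ofReal ?_
      have h2 : (d * Real.log T) ^ 2 ≤ (u - v) ^ 2 := by
        rw [← sq_abs (u - v)]
        exact pow_le_pow_left₀ (by positivity) h1.le 2
      have h3 : Real.exp (-(u - v) ^ 2) ≤ Real.exp (-(d * Real.log T) ^ 2 / 2) *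
          Real.exp (-(u - v) ^ 2 / 2) := by
        rw [← Real.exp_add]
        exact Real.exp_le_exp.2 (by linarith)
      have h4 : 0 < Real.exp (-(d * Real.log T) ^ 2 / 2) * Real.exp (-(u - v) ^ 2 / 2) := by
        positivity
      linarith
  refine (setLIntegral_mono' measurableSet_Ioi key).trans ?_
  have m1 : Measurable fun u => ENNReal.ofReal (Real.exp (-1 * (u - v) ^ 2)) * Z :=
    (Continuous.measurable (by fun_prop)).ennreal_ofReal.mul_const _
  rw [lintegral_add_left m1, lintegral_mul_const' _ _ hZtop,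
    lintegral_const_mul' _ _ ENNReal.ofReal_ne_top]
  refine add_le_add (mul_le_mul_left ?_ _) le_rfl
  refine (setLIntegral_le_lintegral _ _).trans (le_of_eq ?_)
  rw [gauss_lint one_pos, div_one]

/-- the value of the plateau, from below -/
lemma kk_Lam_low {a b d : ℝ} (ha : 1 ≤ a) (hab : a < b) (hd : 0 < d) (hd1 : d ≤ 1 / 8) :
    2 * (b - a) ≤ Lam AG (kk a b d) := by
  have hT := kk_TK ha hab hd hd1
  rw [Lam_AG hT, kk_low ha hab hd hd1 (by rw [abs_zero]; linarith), zero_add]
  have e1 : ∫ α, kk a b d α * min |α| 1 =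
      2 * ∫ α in Set.Ioi (0 : ℝ), kk a b d α * min |α| 1 := by
    have h1 : ∫ α, (fun x => kk a b d x * min |x| 1) |α| =
        2 * ∫ α in Set.Ioi (0 : ℝ), (fun x => kk a b d x * min |x| 1) α :=
      integral_comp_abs (f := fun x => kk a b d x * min |x| 1)
    rw [← h1]
    refine integral_congr_ae (Eventually.of_forall fun α => ?_)
    show kk a b d α * min |α| 1 = kk a b d |α| * min |(|α|)| 1
    rw [abs_abs]
    rcases abs_choice α with h | h
    · rw [h]
    · rw [h, hT.even]
  have hmul : Integrable fun α => kk a b d α * min |α| 1 := hT.mul_int (by fun_prop)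
  have e2 : ∫ _ in Set.Icc a b, (1 : ℝ) ≤ ∫ α in Set.Ioi (0 : ℝ), kk a b d α * min |α| 1 := by
    rw [← integral_indicator measurableSet_Ioi, ← integral_indicator measurableSet_Icc]
    refine integral_mono ((integrable_indicator_iff measurableSet_Icc).2 (by simp))
      (hmul.indicator measurableSet_Ioi) fun α => ?_
    by_cases h0 : α ∈ Set.Icc a b
    · have h1 : (1 : ℝ) ≤ α := ha.trans h0.1
      have h2 : |α| = α := abs_of_pos (by linarith)
      rw [Set.indicator_of_mem h0, Set.indicator_of_mem (show α ∈ Set.Ioi (0 : ℝ) by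
        show 0 < α
        linarith), kk_one ha hab hd hd1 (by rw [h2]; linarith [h0.1]) (by rw [h2]; linarith [h0.2]),
        h2, min_eq_right h1, mul_one]
    · rw [Set.indicator_of_notMem h0]
      exact Set.indicator_nonneg (fun x _ => mul_nonneg (kk_nonneg ha hab hd hd1 x)
        (le_min (abs_nonneg x) (by norm_num))) α
  rw [setIntegral_const] at e2
  simp only [Real.volume_real_Icc, smul_eq_mul, mul_one] at e2
  rw [max_eq_left (by linarith)] at e2
  rw [e1]
  linarith

/-- the quantitative form -/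
lemma Wn_low (RH : RiemannHypothesis) (h : QQ) {a b d ε : ℝ} (ha : 1 ≤ a) (hab : a + 6 * d < b)
    (hd : 0 < d) (hd1 : d ≤ 1 / 8) (hε : 0 < ε) (hε1 : ε ≤ 1) : ∀ᶠ T : ℝ in atTop,
    ENNReal.ofReal ((b - a - 6 * d - 3 * ε) * (Real.log T ^ 2 / T)) ≤
      ENNReal.ofReal (1 + ε) * Wn a b T := by
  have hpi := Real.pi_pos
  have hs : 0 < Real.sqrt π := by positivity
  have hs1 : 1 ≤ Real.sqrt π := Real.one_le_sqrt.2 (by linarith [Real.pi_gt_three])
  have ha' : 1 ≤ a + 3 * d := by linarith
  have hab' : a + 3 * d < b - 3 * d := by linarith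
  have hK := kk_TK ha' hab' hd hd1
  have hpos := kk_nonneg ha' hab' hd hd1
  obtain ⟨K, hKd⟩ : ∃ K, K = kk (a + 3 * d) (b - 3 * d) d := ⟨_, rfl⟩
  have hK1 : ∀ x, K x ≤ 1 := fun x => by rw [hKd]; exact kk_le x
  have hlo : ∀ x, 0 < x → x ≤ a + d → K x = 0 := fun x hx hx2 => by
    rw [hKd]
    exact kk_low ha' hab' hd hd1 (by rw [abs_of_pos hx]; linarith)
  have hhi : ∀ x, 0 < x → b - d ≤ x → K x = 0 := fun x hx hx2 => by
    rw [hKd]
    exact kk_high ha' hab' hd hd1 (by rw [abs_of_pos hx]; linarith)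
  have hΛ := kk_Lam_low ha' hab' hd hd1
  rw [← hKd] at hK hpos hΛ
  have h0 : ∀ x, 0 < x → x < 1 / 2 → K x = 0 := fun x hx hx2 => hlo x hx (by linarith)
  have hb1 : 1 ≤ b - 3 * d + 2 * d := by linarith
  obtain ⟨C, hC, herr⟩ := err_int RH (b := b - 3 * d + 2 * d) hK le_rfl hb1 hK1
  have tl : ∀ᶠ T : ℝ in atTop, 4 ≤ d ^ 2 * Real.log T := by
    filter_upwards [Real.tendsto_log_atTop.eventually_ge_atTop (4 / d ^ 2)] with T h1
    rw [div_le_iff₀ (by positivity)] at h1
    linarith
  filter_upwards [low_gen RH h hK (by linarith) le_rfl hb1 hpos h0 hK1 hε hε1,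
    sml (C := C) (B := ε / 2) (by positivity), tl, eventually_gt_atTop 1] with T hlow hsm htl hT
  have hTp : 0 < T := by linarith
  have hL : 0 < Real.log T := Real.log_pos hT
  have hQ : 0 < Real.log T ^ 2 / T := by positivity
  obtain ⟨d1, d2, d3⟩ := dl_le hT
  have hδ1 : Real.log (1 + 1 / T) ≤ 1 := d2.trans (by rw [div_le_one hTp]; exact hT.le)
  have hkm := kT_measw hK T
  -- the prime side
  have x1 : Real.exp (-(d * Real.log T) ^ 2 / 2) ≤ 1 / T ^ 2 := by
    have : 1 / T ^ 2 = Real.exp (-(2 * Real.log T)) := by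
      rw [Real.exp_neg, mul_comm, Real.exp_mul, Real.exp_log hTp, one_div, Real.rpow_two]
    rw [this]
    refine Real.exp_le_exp.2 ?_
    have : 4 * Real.log T ≤ (d * Real.log T) ^ 2 := by nlinarith
    linarith
  have p1 : ∫⁻ v, Om0 (kT K T) v * qd (v, Real.log (1 + 1 / T)) ≤
      ENNReal.ofReal (Real.sqrt π) * Wn a b T +
      ENNReal.ofReal (ε / 2 * (Real.log T ^ 2 / T)) := by
    have q1 : ∫⁻ v, Om0 (kT K T) v * qd (v, Real.log (1 + 1 / T)) ≤
        ∫⁻ v, ((Set.Ioc (a * Real.log T) (b * Real.log T)).indicator (fun v =>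
        ENNReal.ofReal (Real.sqrt π) * qd (v, Real.log (1 + 1 / T))) v +
        ENNReal.ofReal (Real.exp (-(d * Real.log T) ^ 2 / 2)) *
          (Om1 (kT K T) v * qd (v, Real.log (1 + 1 / T)))) := by
      refine lintegral_mono fun v => ?_
      have h1 := Om0_up (a := a) (b := b) hd hpos hK1 hlo hhi hT v
      refine (mul_le_mul_left h1 _).trans (le_of_eq ?_)
      rw [add_mul]
      congr 1
      · by_cases hv : v ∈ Set.Ioc (a * Real.log T) (b * Real.log T)
        · rw [Set.indicator_of_mem hv, Set.indicator_of_mem hv]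
        · rw [Set.indicator_of_notMem hv, Set.indicator_of_notMem hv, zero_mul]
      · ring
    refine q1.trans ?_
    have m2 : Measurable fun v => Om1 (kT K T) v * qd (v, Real.log (1 + 1 / T)) :=
      (Om1_meas hkm).mul (qd_meas.comp (measurable_id.prodMk measurable_const))
    rw [lintegral_add_right _ (m2.const_mul _), lintegral_indicator measurableSet_Ioc,
      lintegral_const_mul' _ _ ENNReal.ofReal_ne_top, lintegral_const_mul' _ _
      ENNReal.ofReal_ne_top]
    refine add_le_add le_rfl ?_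
    have h2 := herr T hT _ d1 hδ1
    refine (mul_le_mul_right h2 _).trans ?_
    rw [← ENNReal.ofReal_mul (Real.exp_pos _).le]
    refine ENNReal.ofReal_le_ofReal (le_trans ?_ hsm)
    calc Real.exp (-(d * Real.log T) ^ 2 / 2) * (C * (Real.log T * Real.sqrt T)) ≤
        1 / T ^ 2 * (C * (Real.log T * Real.sqrt T)) :=
          mul_le_mul_of_nonneg_right x1 (by positivity)
      _ = _ := by ring
  have f1 : ENNReal.ofReal ((b - a - 6 * d - ε) * (Real.log T ^ 2 / T)) ≤
      ENNReal.ofReal (1 + ε) * Wn a b T + ENNReal.ofReal (ε * (Real.log T ^ 2 / T)) := by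
    have h1 : ENNReal.ofReal ((b - a - 6 * d - ε) * (Real.log T ^ 2 / T)) ≤
        ENNReal.ofReal ((Lam AG K / 2 - ε) * (Real.log T ^ 2 / T)) :=
      ENNReal.ofReal_le_ofReal (mul_le_mul_of_nonneg_right (by linarith) hQ.le)
    refine h1.trans (hlow.trans ((mul_le_mul_right p1 _).trans ?_))
    rw [mul_add, ← mul_assoc, ← ENNReal.ofReal_mul (by positivity),
      ← ENNReal.ofReal_mul (by positivity)]
    refine add_le_add (le_of_eq ?_) (ENNReal.ofReal_le_ofReal ?_)
    · congr 2
      field_simp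
    · have h2 : (1 + ε) / Real.sqrt π ≤ 2 := by
        rw [div_le_iff₀ hs]
        linarith
      calc (1 + ε) / Real.sqrt π * (ε / 2 * (Real.log T ^ 2 / T)) ≤
          2 * (ε / 2 * (Real.log T ^ 2 / T)) := mul_le_mul_of_nonneg_right h2 (by positivity)
        _ = _ := by ring
  have h1 : (b - a - 6 * d - 3 * ε) * (Real.log T ^ 2 / T) ≤
      (b - a - 6 * d - ε) * (Real.log T ^ 2 / T) - ε * (Real.log T ^ 2 / T) := by nlinarith
  refine (ENNReal.ofReal_le_ofReal h1).trans ?_
  rw [ENNReal.ofReal_sub _ (by positivity)]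
  exact tsub_le_iff_right.2 f1

/-- **the lower half of the asymptotic formula** -/
theorem Jw_low (RH : RiemannHypothesis) (h : QQ) {a b : ℝ} (ha : 1 ≤ a) (hab : a < b) {ε : ℝ}
    (hε : 0 < ε) : ∀ᶠ T : ℝ in atTop, b - a - ε ≤ Jw a b T := by
  obtain ⟨d, hd⟩ : ∃ d, d = min (1 / 8) (min ((b - a) / 12) (ε / 12)) := ⟨_, rfl⟩
  have hd0 : 0 < d := by
    rw [hd]
    exact lt_min (by norm_num) (lt_min (by linarith) (by linarith))
  have hd1 : d ≤ 1 / 8 := by rw [hd]; exact min_le_left _ _
  have hd2 : d ≤ (b - a) / 12 := by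
    rw [hd]
    exact (min_le_right _ _).trans (min_le_left _ _)
  have hd3 : d ≤ ε / 12 := by
    rw [hd]
    exact (min_le_right _ _).trans (min_le_right _ _)
  obtain ⟨e, he⟩ : ∃ e, e = min 1 (ε / (2 * (3 + (b - a)))) := ⟨_, rfl⟩
  have hba : 0 < b - a := by linarith
  have he0 : 0 < e := by rw [he]; exact lt_min one_pos (by positivity)
  have he1 : e ≤ 1 := by rw [he]; exact min_le_left _ _
  have he2 : e * (3 + (b - a)) ≤ ε / 2 := by
    have h1 : e ≤ ε / (2 * (3 + (b - a))) := by rw [he]; exact min_le_right _ _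
    rw [le_div_iff₀ (by positivity)] at h1
    linarith
  filter_upwards [Wn_low RH h ha (by linarith : a + 6 * d < b) hd0 hd1 he0 he1,
    eventually_gt_atTop 1] with T h1 hT
  have hTp : 0 < T := by linarith
  have hL : 0 < Real.log T := Real.log_pos hT
  obtain ⟨q, hqd⟩ : ∃ q, q = Real.log T ^ 2 / T := ⟨_, rfl⟩
  have hq : 0 < q := by rw [hqd]; positivity
  rw [← hqd, Wn_eq hT (by linarith) hab.le, ← ENNReal.ofReal_mul (by linarith)] at h1
  obtain ⟨I, hI⟩ : ∃ I, I = ∫ x in (T ^ a)..(T ^ b), Dx T x ^ 2 / x ^ 2 := ⟨_, rfl⟩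
  have hI0 : 0 ≤ I := by
    rw [hI]
    exact intervalIntegral.integral_nonneg (Real.rpow_le_rpow_of_exponent_le hT.le hab.le)
      fun x _ => by positivity
  rw [← hI] at h1
  have h2 := (ENNReal.ofReal_le_ofReal_iff (mul_nonneg (by linarith) hI0)).1 h1
  have h3 : (b - a - ε) * q ≤ I := by
    by_contra hcon
    push Not at hcon
    have h4 : (1 + e) * I < (1 + e) * ((b - a - ε) * q) :=
      mul_lt_mul_of_pos_left hcon (by linarith)
    have h5 : (b - a - 6 * d - 3 * e) * q < (1 + e) * (b - a - ε) * q := by linarith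
    have h6 := lt_of_mul_lt_mul_right h5 hq.le
    nlinarith
  unfold Jw
  rw [← hI]
  calc b - a - ε = T / Real.log T ^ 2 * ((b - a - ε) * q) := by
        rw [hqd]
        field_simp
    _ ≤ T / Real.log T ^ 2 * I := mul_le_mul_of_nonneg_left h3 (by positivity)

/-- **the asymptotic formula** -/
theorem Jw_lim (RH : RiemannHypothesis) (h : QQ) {a b : ℝ} (ha : 1 ≤ a) (hab : a < b) :
    Tendsto (fun T => Jw a b T) atTop (𝓝 (b - a)) := by
  refine tendsto_order.2 ⟨fun c hc => ?_, fun c hc => ?_⟩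
  · filter_upwards [Jw_low RH h ha hab (show 0 < (b - a - c) / 2 by linarith)] with T h1
    linarith
  · filter_upwards [UW_of_conj RH h a b ha hab ((c - (b - a)) / 2) (by linarith)] with T h1
    linarith

end Pool.Agent.H7.AF
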