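import Pool.Agent.H7.AD.Fin
import Pool.Agent.H7.LH.Tru

/-! The lower bound for the primes, from the pair correlation conjecture. -/

open MeasureTheory Filter Topology Real
open scoped ENNReal ContDiff

namespace Pool.Agent.H7.AF

open H370 TH803TW Pool.Agent.Y744 Pool.Agent.H7.PS Pool.Agent.H7.LH Pool.Agent.H7.FF
open Pool.Agent.H7.AC Pool.Agent.H7.AD

variable {κ : ℝ} {K : ℝ → ℝ}

/-- the pair sums of a window, from below -/
theorem QS_low (RH : RiemannHypothesis) (h : QQ) (hK : TK κ K) {a c : ℝ} (ha : 0 < a)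
    (hac : a ≤ c) (hc2 : c ≤ 2 * a) {ε : ℝ} (hε : 0 < ε) : ∀ᶠ T : ℝ in atTop,
      ((c - a) * Lam AG K - ε) * Xf T ≤
    QS (Zb (a * T) (c * T)) (Zb (a * T) (c * T)) mz (fun s => s.im) (ct K) (Real.log T) := by
  obtain ⟨D, hD, hdec⟩ := hK.decay 1
  have hpi := Real.pi_pos
  obtain ⟨V1, hV1, hcr⟩ := cross_w RH hD (η := ε / (32 * Real.pi * a)) (by positivity)
  have hc : 0 < c := by linarith
  have t1 := (tendsto_order.1 (Q2_lim RH h hK hc)).1 (c * Lam AG K - ε / 4) (by linarith)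
  have t2 := (tendsto_order.1 (Q2_lim RH h hK ha)).2 (a * Lam AG K + ε / 4) (by linarith)
  filter_upwards [log_ratio ha, t1, t2, eventually_ge_atTop (V1 / a),
    eventually_gt_atTop 1] with T hlr ht1 ht2 hT1 hT
  obtain ⟨l1, l2, l3⟩ := hlr
  rw [div_le_iff₀ ha] at hT1
  have hTpos : 0 < T := by linarith
  have hL : 0 < Real.log T := Real.log_pos hT
  have hX := Xf_pos hT
  have hV1' : 1 ≤ a * T := by linarith
  have hc' := hcr (a * T) (by linarith) (c * T) (by nlinarith) (Real.log T) l1 (ct K)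
    (fun y => by simpa using hdec y)
  have hsplit := QS_splitw (f := ct K) (TK.ct_neg K) hV1'
    (mul_le_mul_of_nonneg_right hac hTpos.le) (Real.log T)
  have hc3 : 2 * |QS (Zt (a * T)) (Zb (a * T) (c * T)) mz (fun s => s.im) (ct K) (Real.log T)| ≤
      ε / 2 * Xf T := by
    have h2 : ε / (32 * Real.pi * a) * (a * T * Real.log (a * T)) ≤
        ε / (32 * Real.pi * a) * (a * T * (2 * Real.log T)) := by gcongr
    have h3 : ε / (32 * Real.pi * a) * (a * T * (2 * Real.log T)) = Xf T * (ε / 8) := by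
      unfold Xf
      field_simp
      ring
    have h4 : Xf T * (ε / 8) ≤ Xf T * (ε / 4) := by
      apply mul_le_mul_of_nonneg_left _ hX.le
      linarith
    linarith
  have h5 := le_abs_self (QS (Zt (a * T)) (Zb (a * T) (c * T)) mz (fun s => s.im) (ct K)
    (Real.log T))
  rw [inv_mul_eq_div, lt_div_iff₀ hX] at ht1
  rw [inv_mul_eq_div, div_lt_iff₀ hX] at ht2
  nlinarith

lemma win_low (RH : RiemannHypothesis) (h : QQ) (hK : TK κ K) (hκ : 0 ≤ κ) (hpos : ∀ x, 0 ≤ K x)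
    (h0 : ∀ x, 0 < x → x < 1 / 2 → K x = 0) {a c η e : ℝ} (ha : 0 < a)
    (hac : a < c) (hc2 : c ≤ 2 * a) (hη : 0 < η) (he : 0 < e) :
    ∀ᶠ T : ℝ in atTop,
      ENNReal.ofReal ((((c - a) * Lam AG K - e) / (2 * π) - e) * (T * Real.log T ^ 2)) ≤
      ENNReal.ofReal ((1 + η) / (π * Real.sqrt π)) * ∫⁻ t in Set.Ioc (a * T) (c * T),
        ∫⁻ u in Set.Ioi (0 : ℝ), kT K T u * PH (u, t) := by
  obtain ⟨C3, V3, hC3, hV3, hwin⟩ := QS_win RH hK hκ hpos h0 hη
  have hlo := Real.isLittleO_log_id_atTop.bound (c := (c - a) / 4) (by linarith)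
  filter_upwards [log_ratio ha, QS_low RH h hK ha hac.le hc2 he,
    eventually_ge_atTop (V3 / a), Real.tendsto_log_atTop.eventually_ge_atTop (C3 * a / e),
    hlo, eventually_gt_atTop 1] with T hlr hq hT3 hTl hlo hT
  obtain ⟨l1, l2, l3⟩ := hlr
  rw [div_le_iff₀ ha] at hT3
  rw [div_le_iff₀ he] at hTl
  have hTpos : 0 < T := by linarith
  have hL : 0 < Real.log T := Real.log_pos hT
  have hpi := Real.pi_pos
  have haT : 10 ≤ a * T := by linarith
  have hacT : c * T ≤ 2 * (a * T) := by nlinarith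
  rw [Real.norm_eq_abs, abs_of_pos hL, id, Real.norm_eq_abs, abs_of_pos hTpos] at hlo
  have hPQ : a * T + 2 * Real.log (a * T) ≤ c * T := by linarith
  have h1 := hwin (a * T) (by linarith) (a * T) (c * T) le_rfl hacT hPQ (Real.log T) l1 l2
  rw [block_swapw hK hT] at h1
  obtain ⟨I, hI⟩ : ∃ I, I = ∫⁻ t in Set.Ioc (a * T) (c * T), ∫⁻ u in Set.Ioi (0 : ℝ),
      kT K T u * PH (u, t) := ⟨_, rfl⟩
  rw [← hI] at h1 ⊢
  obtain ⟨Y, hY⟩ : ∃ Y, Y = (c - a) * Lam AG K - e := ⟨_, rfl⟩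
  rw [← hY] at hq ⊢
  have h5 : ENNReal.ofReal (Y * Xf T - C3 * (a * T)) ≤
      ENNReal.ofReal ((1 + η) / (π * Real.sqrt π)) *
      (ENNReal.ofReal (Real.log T)⁻¹ * I) := by
    rw [ENNReal.ofReal_sub _ (by positivity)]
    exact tsub_le_iff_right.2 ((ENNReal.ofReal_le_ofReal hq).trans h1)
  have h6 : (Y / (2 * π) - e) * (T * Real.log T ^ 2) ≤
      Real.log T * (Y * Xf T - C3 * (a * T)) := by
    have k1 : C3 * (a * T) ≤ Real.log T * e * T := by
      rw [← mul_assoc]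
      exact mul_le_mul_of_nonneg_right hTl hTpos.le
    have k2 : (Y / (2 * π) - e) * (T * Real.log T ^ 2) =
        Real.log T * (Y * Xf T - Real.log T * e * T) := by
      unfold Xf
      ring
    rw [k2]
    exact mul_le_mul_of_nonneg_left (by linarith) hL.le
  calc ENNReal.ofReal ((Y / (2 * π) - e) * (T * Real.log T ^ 2)) ≤
        ENNReal.ofReal (Real.log T * (Y * Xf T - C3 * (a * T))) :=
        ENNReal.ofReal_le_ofReal h6
    _ = ENNReal.ofReal (Real.log T) * ENNReal.ofReal (Y * Xf T - C3 * (a * T)) :=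
        ENNReal.ofReal_mul hL.le
    _ ≤ ENNReal.ofReal (Real.log T) * (ENNReal.ofReal ((1 + η) / (π * Real.sqrt π)) *
      (ENNReal.ofReal (Real.log T)⁻¹ * I)) := mul_le_mul_right h5 _
    _ = (ENNReal.ofReal (Real.log T) * ENNReal.ofReal (Real.log T)⁻¹) *
        (ENNReal.ofReal ((1 + η) / (π * Real.sqrt π)) * I) := by ring
    _ = _ := by
        rw [← ENNReal.ofReal_mul hL.le, mul_inv_cancel₀ hL.ne', ENNReal.ofReal_one, one_mul]

/-- the errors are small -/
lemma sml {C B : ℝ} (hB : 0 < B) : ∀ᶠ T : ℝ in atTop,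
    C * (Real.log T * Real.sqrt T) / T ^ 2 ≤ B * (Real.log T ^ 2 / T) := by
  have s1 : Tendsto (fun T : ℝ => Real.sqrt T) atTop atTop := by
    simp_rw [Real.sqrt_eq_rpow]
    exact tendsto_rpow_atTop (by norm_num)
  filter_upwards [s1.eventually_ge_atTop (|C| / B), Real.tendsto_log_atTop.eventually_ge_atTop 1,
    eventually_ge_atTop 1] with T hs hl hT
  have hTp : 0 < T := by linarith
  rw [div_le_iff₀ hB] at hs
  have hsq : Real.sqrt T * Real.sqrt T = T := Real.mul_self_sqrt hTp.le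
  have hst : 0 < Real.sqrt T := Real.sqrt_pos.2 hTp
  rw [← mul_div_assoc, div_le_div_iff₀ (by positivity) hTp]
  calc C * (Real.log T * Real.sqrt T) * T ≤ |C| * (Real.log T * Real.sqrt T) * T := by
        gcongr
        exact le_abs_self C
    _ ≤ (Real.sqrt T * B) * (Real.log T * Real.sqrt T) * T := by gcongr
    _ = B * Real.log T * (Real.sqrt T * Real.sqrt T) * T := by ring
    _ = B * (Real.log T * 1) * T ^ 2 := by rw [hsq]; ring
    _ ≤ B * (Real.log T * Real.log T) * T ^ 2 := by gcongr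
    _ = B * Real.log T ^ 2 * T ^ 2 := by ring

/-- **from the pair sums to the primes** -/
theorem low_gen (RH : RiemannHypothesis) (h : QQ) {b : ℝ} (hK : TK κ K) (hκ : 0 ≤ κ)
    (hκb : κ ≤ b) (hb : 1 ≤ b) (hpos : ∀ x, 0 ≤ K x)
    (h0 : ∀ x, 0 < x → x < 1 / 2 → K x = 0) (hK1 : ∀ x, K x ≤ 1) {ε : ℝ} (hε : 0 < ε)
    (hε1 : ε ≤ 1) : ∀ᶠ T : ℝ in atTop,
      ENNReal.ofReal ((Lam AG K / 2 - ε) * (Real.log T ^ 2 / T)) ≤
      ENNReal.ofReal ((1 + ε) / Real.sqrt π) *
        ∫⁻ v, Om0 (kT K T) v * qd (v, Real.log (1 + 1 / T)) := by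
  have hpi := Real.pi_pos
  have hsp : 0 < Real.sqrt π := Real.sqrt_pos.2 hpi
  have hΛ0 := Lam_pos' hK hpos
  obtain ⟨Λ, hΛ⟩ : ∃ Λ, Λ = Lam AG K := ⟨_, rfl⟩
  rw [← hΛ] at hΛ0 ⊢
  obtain ⟨d, hd⟩ : ∃ d, d = min (1 / 5) (ε / (4 * (Λ + 1))) := ⟨_, rfl⟩
  have hd0 : 0 < d := by rw [hd]; exact lt_min (by norm_num) (by positivity)
  have hd1 : d ≤ 1 / 5 := by rw [hd]; exact min_le_left _ _
  have hdΛ : d * Λ ≤ ε / 4 := by
    have h1 : d ≤ ε / (4 * (Λ + 1)) := by rw [hd]; exact min_le_right _ _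
    rw [le_div_iff₀ (by positivity)] at h1
    nlinarith
  obtain ⟨a, s, N, m, hs, hsa, -, -, -, -, hm, hsum, hev⟩ := riem hd0 hd1
  have ha : 0 < a := by linarith
  obtain ⟨S, hS⟩ : ∃ S, S = ∑ j ∈ Finset.range N, m j := ⟨_, rfl⟩
  have hS0 : 0 ≤ S := by rw [hS]; exact Finset.sum_nonneg fun j _ => hm j
  obtain ⟨e, he⟩ : ∃ e, e = ε / (8 * (S + 1)) := ⟨_, rfl⟩
  have he0 : 0 < e := by rw [he]; positivity
  have heS : e * S ≤ ε / 8 := by
    rw [he, div_mul_eq_mul_div, div_le_div_iff₀ (by positivity) (by norm_num)]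
    nlinarith
  obtain ⟨η, hη⟩ : ∃ η, η = ε / 3 := ⟨_, rfl⟩
  have hη0 : 0 < η := by rw [hη]; positivity
  have hηε : (1 + η) ^ 2 ≤ 1 + ε := by
    rw [hη]
    nlinarith
  have hjh : ∀ j : ℕ, 0 ≤ (j : ℝ) * s := fun j => by positivity
  have hev2 : ∀ᶠ T : ℝ in atTop, ∀ t, ∑ j ∈ Finset.range N,
      (Set.Ioc ((a + j * s) * T) ((a + j * s + s) * T)).indicator
        (fun _ => ENNReal.ofReal (m j / T ^ 2)) t ≤ wd (Real.log (1 + 1 / T)) t := by
    filter_upwards [hev, eventually_gt_atTop 0] with T h1 hT t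
    rcases pt_one hs hT N (fun j => ENNReal.ofReal (m j / T ^ 2)) t with ⟨-, h2⟩ | ⟨j, hj, ht, h2⟩
    · rw [h2]
      exact zero_le
    · rw [h2]
      exact h1 j hj t ht
  have hall : ∀ᶠ T : ℝ in atTop, ∀ j ∈ Finset.range N,
      ENNReal.ofReal (((s * Λ - e) / (2 * π) - e) * (T * Real.log T ^ 2)) ≤
      ENNReal.ofReal ((1 + η) / (π * Real.sqrt π)) *
        ∫⁻ t in Set.Ioc ((a + j * s) * T) ((a + j * s + s) * T),
        ∫⁻ u in Set.Ioi (0 : ℝ), kT K T u * PH (u, t) :=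
    (Filter.eventually_all_finset _).2 fun j _ => by
      have h1 := win_low RH h hK hκ hpos h0 (a := a + j * s) (c := a + j * s + s)
        (by linarith [hjh j]) (by linarith) (by linarith [hjh j]) hη0 he0
      filter_upwards [h1] with T h2
      rw [← hΛ, show a + j * s + s - (a + j * s) = s by ring] at h2
      exact h2
  obtain ⟨C, hC, herr⟩ := err_int RH (b := b) hK hκb hb hK1
  obtain ⟨C', hC'⟩ : ∃ C', C' = (1 + η) / Real.sqrt π * ((1 + 1 / η) * C) := ⟨_, rfl⟩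
  filter_upwards [hall, hev2, sml (C := C') (B := ε / 2) (by positivity), eventually_gt_atTop 1]
    with T hall hev t1 hT
  have hTp : 0 < T := by linarith
  have hL : 0 < Real.log T := Real.log_pos hT
  obtain ⟨δ, hδ⟩ : ∃ δ, δ = Real.log (1 + 1 / T) := ⟨_, rfl⟩
  rw [← hδ] at hev ⊢
  obtain ⟨d1, d2, d3⟩ := dl_le hT
  rw [← hδ] at d1 d2 d3
  have hδ1 : δ ≤ 1 := d2.trans (by
    rw [div_le_one hTp]
    exact hT.le)
  have hkm := kT_measw hK T
  obtain ⟨F, hF⟩ : ∃ F : ℝ → ℝ≥0∞, F = fun t => ∫⁻ u in Set.Ioi (0 : ℝ), kT K T u * PH (u, t) :=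
    ⟨_, rfl⟩
  have hFm : Measurable F := by
    rw [hF]
    have m1 : Measurable fun p : ℝ × ℝ => kT K T p.2 * PH (p.2, p.1) :=
      (hkm.comp measurable_snd).mul (PH_meas.comp measurable_swap)
    exact m1.lintegral_prod_right'
  have hker : ∫⁻ t in Set.Ioi (0 : ℝ), wd δ t * F t ≤
      ENNReal.ofReal π * (ENNReal.ofReal (1 + η) * (∫⁻ v, Om0 (kT K T) v * qd (v, δ)) +
        ENNReal.ofReal (1 + 1 / η) * (ENNReal.ofReal δ *
          ∫⁻ s in Set.Ioc 0 δ, ∫⁻ w, Om1 (kT K T) w * qd (w, s))) := by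
    rw [hF]
    exact ker_one d1 hη0 hkm
  have p2 : ENNReal.ofReal δ * ∫⁻ s in Set.Ioc 0 δ, ∫⁻ w, Om1 (kT K T) w * qd (w, s) ≤
      ENNReal.ofReal (C * (Real.log T * Real.sqrt T) / T ^ 2) := by
    have h1 : ∫⁻ s in Set.Ioc 0 δ, ∫⁻ w, Om1 (kT K T) w * qd (w, s) ≤
        ∫⁻ s in Set.Ioc 0 δ, ENNReal.ofReal (C * (Real.log T * Real.sqrt T)) :=
      setLIntegral_mono' measurableSet_Ioc fun s hs => herr T hT s hs.1 (hs.2.trans hδ1)
    rw [setLIntegral_const, Real.volume_Ioc, sub_zero] at h1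
    refine (mul_le_mul_right h1 _).trans ?_
    rw [← ENNReal.ofReal_mul (by positivity), ← ENNReal.ofReal_mul (by positivity)]
    refine ENNReal.ofReal_le_ofReal ?_
    have h3 : δ * δ ≤ 1 / T * (1 / T) := mul_le_mul d2 d2 d1.le (by positivity)
    have h4 : 0 ≤ C * (Real.log T * Real.sqrt T) := by positivity
    calc δ * (C * (Real.log T * Real.sqrt T) * δ) = C * (Real.log T * Real.sqrt T) * (δ * δ) := by
          ring
      _ ≤ C * (Real.log T * Real.sqrt T) * (1 / T * (1 / T)) := mul_le_mul_of_nonneg_left h3 h4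
      _ = _ := by ring
  obtain ⟨J, hJ⟩ : ∃ J, J = ∫⁻ v, Om0 (kT K T) v * qd (v, δ) := ⟨_, rfl⟩
  rw [← hJ] at hker ⊢
  -- the side of the zeros
  obtain ⟨Y, hY⟩ : ∃ Y, Y = (s * Λ - e) / (2 * π) - e := ⟨_, rfl⟩
  rw [← hY] at hall
  have z1 : ∑ j ∈ Finset.range N, ENNReal.ofReal (m j / T ^ 2) *
      ENNReal.ofReal (Y * (T * Real.log T ^ 2)) ≤ ENNReal.ofReal ((1 + η) / (π * Real.sqrt π)) *
      ∫⁻ t in Set.Ioi (0 : ℝ), wd δ t * F t := by
    refine le_trans ?_ (mul_le_mul_right (sum_wd (aw := fun j => a + j * s)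
      (cw := fun j => a + j * s + s) (fun j => (mul_pos (by linarith [hjh j]) hTp).le) hev hFm) _)
    rw [Finset.mul_sum]
    refine Finset.sum_le_sum fun j hj => ?_
    refine (mul_le_mul_right (hall j hj) _).trans (le_of_eq ?_)
    rw [hF]
    ring
  have z2 : ENNReal.ofReal (Real.log T ^ 2 / T * (Y * S)) ≤ ∑ j ∈ Finset.range N,
      ENNReal.ofReal (m j / T ^ 2) * ENNReal.ofReal (Y * (T * Real.log T ^ 2)) := by
    have h1 := ofReal_sum_le (N := N) (fun j => m j / T ^ 2 * (Y * (T * Real.log T ^ 2)))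
    have h2 : ∑ j ∈ Finset.range N, ENNReal.ofReal (m j / T ^ 2 * (Y * (T * Real.log T ^ 2))) =
        ∑ j ∈ Finset.range N,
      ENNReal.ofReal (m j / T ^ 2) * ENNReal.ofReal (Y * (T * Real.log T ^ 2)) := by
      refine Finset.sum_congr rfl fun j _ => ?_
      rw [ENNReal.ofReal_mul (div_nonneg (hm j) (by positivity))]
    rw [h2] at h1
    refine le_trans (ENNReal.ofReal_le_ofReal (le_of_eq ?_)) h1
    rw [hS, Finset.mul_sum, Finset.mul_sum]
    refine Finset.sum_congr rfl fun j _ => ?_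
    field_simp
  have hYS : Λ / 2 - ε / 2 ≤ Y * S := by
    have k1 : Y * S = s * S * Λ / (2 * π) - e * S / (2 * π) - e * S := by
      rw [hY]
      ring
    have k2 : π * (1 - d) * Λ / (2 * π) ≤ s * S * Λ / (2 * π) := by
      rw [hS]
      gcongr
    have k3 : π * (1 - d) * Λ / (2 * π) = Λ / 2 - d * Λ / 2 := by
      field_simp
    have k4 : e * S / (2 * π) ≤ e * S := by
      refine div_le_self (by positivity) ?_
      linarith [Real.pi_gt_three]
    linarith
  have f1 : ENNReal.ofReal (Real.log T ^ 2 / T * (Λ / 2 - ε / 2)) ≤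
      ENNReal.ofReal ((1 + ε) / Real.sqrt π) * J + ENNReal.ofReal (ε / 2 * (Real.log T ^ 2 / T)) := by
    have h1 := (ENNReal.ofReal_le_ofReal (mul_le_mul_of_nonneg_left hYS
      (show 0 ≤ Real.log T ^ 2 / T by positivity))).trans
        (z2.trans (z1.trans (mul_le_mul_right hker _)))
    refine h1.trans ?_
    have h2 := mul_le_mul_right (mul_le_mul_right (add_le_add (le_refl (ENNReal.ofReal (1 + η) * J))
      (mul_le_mul_right p2 (ENNReal.ofReal (1 + 1 / η)))) (ENNReal.ofReal π))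
      (ENNReal.ofReal ((1 + η) / (π * Real.sqrt π)))
    refine h2.trans ?_
    have e1 : ENNReal.ofReal ((1 + η) / (π * Real.sqrt π)) * (ENNReal.ofReal π *
        (ENNReal.ofReal (1 + η) * J + ENNReal.ofReal (1 + 1 / η) *
          ENNReal.ofReal (C * (Real.log T * Real.sqrt T) / T ^ 2))) =
        (ENNReal.ofReal ((1 + η) / (π * Real.sqrt π)) * ENNReal.ofReal π *
          ENNReal.ofReal (1 + η)) * J +
        (ENNReal.ofReal ((1 + η) / (π * Real.sqrt π)) * ENNReal.ofReal π) *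
          (ENNReal.ofReal (1 + 1 / η) *
          ENNReal.ofReal (C * (Real.log T * Real.sqrt T) / T ^ 2)) := by ring
    rw [e1]
    refine add_le_add ?_ ?_
    · refine mul_le_mul_left ?_ _
      rw [← ENNReal.ofReal_mul (by positivity), ← ENNReal.ofReal_mul (by positivity)]
      refine ENNReal.ofReal_le_ofReal ?_
      have e2 : (1 + η) / (π * Real.sqrt π) * π * (1 + η) = (1 + η) ^ 2 / Real.sqrt π := by
        field_simp
      rw [e2]
      exact div_le_div_of_nonneg_right hηε hsp.le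
    · rw [← ENNReal.ofReal_mul (by positivity), ← ENNReal.ofReal_mul (by positivity),
        ← ENNReal.ofReal_mul (by positivity)]
      refine ENNReal.ofReal_le_ofReal (le_trans (le_of_eq ?_) t1)
      rw [hC']
      field_simp
  have h1 : (Λ / 2 - ε) * (Real.log T ^ 2 / T) = Real.log T ^ 2 / T * (Λ / 2 - ε / 2) -
      ε / 2 * (Real.log T ^ 2 / T) := by ring
  rw [h1, ENNReal.ofReal_sub _ (by positivity)]
  exact tsub_le_iff_right.2 f1

end Pool.Agent.H7.AF
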